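import Mathlib

namespace Pool.Agent.Results.MP_fdacb0_an.Main

open Filter Topology Set

/-- A real `p`-Banach space; the group norm is the `p`-th power of the `p`-norm. -/
structure PBan (p : ℝ) where
  X : Type
  [g : NormedAddCommGroup X]
  [m : Module ℝ X]
  [c : CompleteSpace X]
  hom : ∀ (a : ℝ) (x : X), ‖a • x‖ = |a| ^ p * ‖x‖

attribute [instance] PBan.g PBan.m PBan.c

/-- `f` is `L`-Lipschitz for the `p`-norms. -/
def Lip {p : ℝ} (A E : PBan p) (f : A.X → E.X) (L : ℝ) : Prop :=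
  ∀ x y, ‖f x - f y‖ ≤ L ^ p * ‖x - y‖

/-- `(F, δ)` is the Lipschitz free `p`-space over the `p`-Banach space `A` (base point `0`). -/
def IsFree {p : ℝ} (A F : PBan p) (δ : A.X → F.X) : Prop :=
  δ 0 = 0 ∧ Lip A F δ 1 ∧ Dense (Submodule.span ℝ (range δ) : Set F.X) ∧
    ∀ (E : PBan p) (f : A.X → E.X), f 0 = 0 → (∃ L, 0 ≤ L ∧ Lip A E f L) →
      ∃! T : F.X →L[ℝ] E.X, (∀ x, T (δ x) = f x) ∧
        ∀ L, 0 ≤ L → (Lip A E f L ↔ Lip F E T L)

open UniformSpace Finsupp

variable {p : ℝ}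

theorem csm (p0 : 0 < p) (F : PBan p) : ContinuousSMul ℝ F.X := by
  refine ⟨continuous_iff_continuousAt.2 fun a => tendsto_iff_norm_sub_tendsto_zero.2 ?_⟩
  have c : Continuous fun b : ℝ × F.X => |b.1| ^ p * ‖b.2 - a.2‖ + |b.1 - a.1| ^ p * ‖a.2‖ := by
    have := Real.continuous_rpow_const p0.le
    fun_prop
  refine squeeze_zero (fun _ => norm_nonneg _) (fun b => ?_) (c.tendsto' a 0 (by simp [p0.ne']))
  rw [← F.hom, ← F.hom, ← sub_add_sub_cancel _ (b.1 • a.2), smul_sub, sub_smul]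
  exact norm_add_le _ _

inductive Tm : Type
  | o : Tm
  | e : Tm
  | c : ℝ → Tm → Tm → Tm

noncomputable def ev : Tm → Tm →₀ ℝ
  | .o => 0
  | .e => single .e 1
  | .c a s t => a • single s 1 + ev t

def lv : Tm → ℝ
  | .o => 0
  | .e => 1
  | .c a s t => a * lv s + lv t

noncomputable def wt (p : ℝ) : Tm → ℝ
  | .o => 0
  | .e => 1
  | .c a s t => |a| ^ p * wt p s + wt p t

structure Good (p : ℝ) (N : (Tm →₀ ℝ) → ℝ) : Prop where
  ad : ∀ u v, N (u + v) ≤ N u + N v
  sm : ∀ (a : ℝ) u, N (a • u) = |a| ^ p * N u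
  o : N (single .o 1) ≤ 0
  e : N (single .e 1) ≤ 1
  d : ∀ s t, N (single s 1 - single t 1) ≤ N (ev s - ev t)

theorem evs : Function.Surjective ev := fun u => by
  induction u using Finsupp.induction with
  | zero => exact ⟨.o, rfl⟩
  | single_add s a u _ _ ih => obtain ⟨t, rfl⟩ := ih; exact ⟨.c a s t, by simp [ev]⟩

theorem pre (p0 : 0 < p) (p1 : p < 1) :
    ∃ (V : Type) (_ : SeminormedAddCommGroup V) (_ : Module ℝ V) (d : V → V) (l : V →ₗ[ℝ] ℝ),
      (∀ (a : ℝ) (v : V), ‖a • v‖ = |a| ^ p * ‖v‖) ∧ ‖d 0‖ ≤ 0 ∧ (∀ x y, ‖d x - d y‖ ≤ ‖x - y‖) ∧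
      (∀ W : Submodule ℝ V, (∀ x y, ‖x - d y‖ ≤ 0 → x ∈ W) → W = ⊤) ∧
      (∀ v, |l v| ^ p ≤ ‖v‖) ∧ (∃ v, l v = 1) ∧
      ∀ (E : PBan p) (f : V → E.X), f 0 = 0 → ∃ T : V →ₗ[ℝ] E.X, (∀ x, T (d x) = f x) ∧
        ∀ C, 0 ≤ C → (∀ x y, ‖f x - f y‖ ≤ C * ‖x - y‖) → ∀ v, ‖T v‖ ≤ C * ‖v‖ := by
  have z : ∀ N, Good p N → N 0 = 0 := fun N h => by simpa [p0.ne'] using h.sm 0 0
  have b1 : ∀ N, Good p N → ∀ t, N (single t 1) ≤ N (ev t) := fun N h t => by
    have := h.ad (single t 1 - single .o 1) (single .o 1)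
    have k := h.d t .o
    rw [sub_add_cancel] at this
    rw [ev, sub_zero] at k
    linarith [h.o]
  have b2 : ∀ N, Good p N → ∀ t, N (ev t) ≤ wt p t := fun N h t => by
    induction t with
    | o => exact (z N h).le
    | e => exact h.e
    | c a s t i1 i2 =>
      refine (h.ad _ _).trans (add_le_add ?_ i2)
      rw [h.sm]
      exact mul_le_mul_of_nonneg_left ((b1 N h s).trans i1) (by positivity)
  have l1 : ∀ t, linearCombination ℝ lv (ev t) = lv t := fun t => by
    induction t with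
    | o => simp [ev, lv]
    | e => simp [ev, lv]
    | c a s t _ i2 => simp [ev, lv, i2]
  have g0 : Good p fun u => |linearCombination ℝ lv u| ^ p :=
    ⟨fun u v => by
      rw [map_add]
      exact (Real.rpow_le_rpow (abs_nonneg _) (abs_add_le _ _) p0.le).trans
        (Real.rpow_add_le_add_rpow (abs_nonneg _) (abs_nonneg _) p0.le p1.le),
     fun a u => by rw [map_smul, smul_eq_mul, abs_mul, Real.mul_rpow (abs_nonneg _) (abs_nonneg _)],
     by simp [lv, p0.ne'], by simp [lv], fun s t => by simp [l1]⟩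
  have : Nonempty {N // Good p N} := ⟨⟨_, g0⟩⟩
  obtain ⟨M, M1, M2, M3⟩ : ∃ M : (Tm →₀ ℝ) → ℝ, (∀ N, Good p N → ∀ u, N u ≤ M u) ∧
      (∀ u r, (∀ N, Good p N → N u ≤ r) → M u ≤ r) ∧
      ∀ (a : ℝ) u, M (a • u) = |a| ^ p * M u :=
    ⟨fun u => ⨆ N : {N // Good p N}, N.1 u, fun N h u => by
      obtain ⟨t, rfl⟩ := evs u
      exact le_ciSup (f := fun N : {N // Good p N} => N.1 (ev t))
        ⟨wt p t, by rintro _ ⟨N, rfl⟩; exact b2 N.1 N.2 t⟩ ⟨N, h⟩,
      fun u r h => ciSup_le fun N => h N.1 N.2, fun a u => by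
        rw [Real.mul_iSup_of_nonneg (by positivity)]
        exact iSup_congr fun N => N.2.sm a u⟩
  have gM : Good p M := ⟨fun u v => M2 _ _ fun N h => (h.ad u v).trans
    (add_le_add (M1 N h u) (M1 N h v)), M3, M2 _ _ fun N h => h.o, M2 _ _ fun N h => h.e,
    fun s t => M2 _ _ fun N h => (h.d s t).trans (M1 N h _)⟩
  choose σ hσ using evs
  refine ⟨Tm →₀ ℝ, AddGroupSeminorm.toSeminormedAddCommGroup
    { toFun := M
      map_zero' := z M gM
      add_le' := gM.ad
      neg' := fun v => by simpa using M3 (-1) v }, inferInstance, fun v => single (σ v) 1,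
    linearCombination ℝ lv, M3, ((b1 M gM _).trans_eq (by rw [hσ, z M gM]) : M _ ≤ 0),
    fun x y => ((gM.d _ _).trans_eq (by rw [hσ, hσ]) : M _ ≤ M _), fun W hW => ?_, M1 _ g0,
    ⟨single .e 1, by simp [lv]⟩, fun E f f0 => ⟨linearCombination ℝ fun t => f (ev t),
      fun x => by simp [hσ], fun C C0 hC v => ?_⟩⟩
  · rw [eq_top_iff, ← (Finsupp.basisSingleOne (R := ℝ) (ι := Tm)).span_eq, Submodule.span_le]
    rintro _ ⟨t, rfl⟩
    exact hW _ (ev t) ((gM.d t _).trans_eq (by rw [hσ, sub_self, z M gM]) : M _ ≤ 0)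
  · have hC' : ∀ x y, ‖f x - f y‖ ≤ C * M (x - y) := hC
    show _ ≤ C * M v
    rcases C0.eq_or_lt with rfl | C0
    · have : f = 0 := funext fun x => by simpa [f0] using hC' x 0
      have : (linearCombination ℝ fun t => f (ev t)) = 0 := by ext t; simp [this]
      simp [this]
    · obtain ⟨T, hT⟩ : ∃ T, T = linearCombination ℝ fun t => f (ev t) := ⟨_, rfl⟩
      have k : ∀ s t, C⁻¹ * ‖T (single s 1 - single t 1)‖ ≤ M (ev s - ev t) := fun s t => by
        rw [inv_mul_le_iff₀ C0]; simpa [hT] using hC' _ _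
      have k0 : T (single .o 1) = 0 := by simp [hT, ev, f0]
      rw [← hT, ← inv_mul_le_iff₀ C0]
      refine (le_max_right _ _).trans (M1 (fun u => max (M u) (C⁻¹ * ‖T u‖)) ⟨fun u v => max_le
        ((gM.ad u v).trans (add_le_add (le_max_left _ _) (le_max_left _ _))) (le_trans ?_
        (add_le_add (le_max_right _ _) (le_max_right _ _))), fun a u => ?_, max_le gM.o
        (by simp [k0]), max_le gM.e ?_, fun s t => (max_le (gM.d s t) (k s t)).trans
        (le_max_left _ _)⟩ v)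
      · rw [map_add, ← mul_add]
        exact mul_le_mul_of_nonneg_left (norm_add_le _ _) (by positivity)
      · rw [M3, map_smul, E.hom, mul_left_comm, mul_max_of_nonneg _ _ (by positivity)]
      · have := k .e .o
        rw [map_sub, k0, sub_zero, ev, ev, sub_zero] at this
        exact this.trans gM.e

theorem fix (p0 : 0 < p) (p1 : p < 1) :
    ∃ (A : PBan p) (δ : A.X → A.X), Nontrivial A.X ∧ IsFree A A δ := by
  obtain ⟨V, _, _, d, l, n3, d0, d1, sp, l1, ⟨v, hv⟩, lf⟩ := pre p0 p1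
  have : UniformContinuousConstSMul ℝ V := ⟨fun a => uniformContinuous_addMonoidHom_of_continuous
    (AddMonoidHomClass.continuous_of_bound (DistribSMul.toAddMonoidHom V a) _ fun v => (n3 a v).le)⟩
  let F : PBan p := ⟨Completion V, fun a x => by
    induction x using Completion.induction_on with
    | hp => exact isClosed_eq (continuous_const_smul a).norm (continuous_const.mul continuous_norm)
    | ih v => rw [← Completion.coe_smul, Completion.norm_coe, Completion.norm_coe, n3]⟩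
  have du : UniformContinuous d := (LipschitzWith.of_dist_le_mul (K := 1) fun x y => by
    simpa [dist_eq_norm] using d1 x y).uniformContinuous
  obtain ⟨δ, e1, e2⟩ : ∃ δ : Completion V → Completion V, (∀ v : V, δ v = d v) ∧ Continuous δ :=
    ⟨Completion.map d, Completion.map_coe du, Completion.continuous_map⟩
  have lp : ∀ x y, ‖δ x - δ y‖ ≤ ‖x - y‖ := fun x y => by
    induction x, y using Completion.induction_on₂ with
    | hp => exact isClosed_le ((e2.comp continuous_fst).sub (e2.comp continuous_snd)).norm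
              (continuous_fst.sub continuous_snd).norm
    | ih a b =>
      rw [e1, e1, ← Completion.coe_sub, ← Completion.coe_sub, Completion.norm_coe,
        Completion.norm_coe]
      exact d1 a b
  have de : Dense (Submodule.span ℝ (range δ) : Set (Completion V)) := by
    refine Completion.denseRange_coe.mono ?_
    rintro _ ⟨v, rfl⟩
    have := sp ⟨⟨⟨{v : V | (v : Completion V) ∈ Submodule.span ℝ (range δ)}, fun a b => by
      rw [mem_ofPred_eq, Completion.coe_add]; exact add_mem a b⟩, by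
      show ((0 : V) : Completion V) ∈ Submodule.span ℝ (range δ)
      exact zero_mem _⟩, fun a _ b => by
      rw [mem_ofPred_eq, Completion.coe_smul]; exact Submodule.smul_mem _ _ b⟩ fun x y h => by
        rw [← Completion.norm_coe, norm_le_zero_iff, Completion.coe_sub, sub_eq_zero, ← e1] at h
        exact Submodule.subset_span ⟨_, h.symm⟩
    exact (this ▸ Submodule.mem_top : v ∈ _)
  refine ⟨F, δ, ⟨(v : Completion V), 0, fun h => ?_⟩, ?_, fun x y => by simpa using lp x y, de,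
    fun E f f0 ⟨L, L0, hL⟩ => ?_⟩
  · have := l1 v
    rw [← Completion.norm_coe, h, hv] at this
    norm_num at this
  · show δ ((0 : V) : Completion V) = 0
    rwa [e1, ← norm_le_zero_iff, Completion.norm_coe]
  obtain ⟨T, hT, T1⟩ := lf E (fun v => f v) f0
  have T2 : ∀ L, 0 ≤ L → Lip F E f L → ∀ v, ‖T v‖ ≤ L ^ p * ‖v‖ := fun L L0 h =>
    T1 _ (by positivity) fun x y => (h _ _).trans_eq (by
      show _ * ‖(x : Completion V) - y‖ = _
      rw [← Completion.coe_sub, Completion.norm_coe])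
  have Tc := AddMonoidHomClass.continuous_of_bound T.toAddMonoidHom _ (T2 L L0 hL)
  obtain ⟨U, Te, Tk⟩ : ∃ U : Completion V →+ E.X, (∀ v : V, U v = T v) ∧ Continuous U :=
    ⟨_, T.toAddMonoidHom.extension_coe Tc, T.toAddMonoidHom.continuous_extension Tc⟩
  have := csm p0 E
  have fc : Continuous f := (LipschitzWith.of_dist_le_mul (K := ⟨L ^ p, by positivity⟩)
    fun x y => by rw [dist_eq_norm, dist_eq_norm]; exact hL x y).continuous
  have Ud : ∀ x, U (δ x) = f x := fun x => by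
    induction x using Completion.induction_on with
    | hp => exact isClosed_eq (Tk.comp e2) fc
    | ih v => rw [e1, Te, hT]
  refine ⟨⟨⟨U.toAddHom, fun a x => ?_⟩, Tk⟩,
    ⟨Ud, fun L L0 => ⟨fun h v w => ?_, fun h x y => ?_⟩⟩, fun W hW => ?_⟩
  · show U (a • x) = a • U x
    induction x using Completion.induction_on with
    | hp => exact isClosed_eq (Tk.comp (continuous_const_smul a)) (Tk.const_smul a)
    | ih v => rw [← Completion.coe_smul, Te, Te]; exact T.map_smul a v
  · show ‖U v - U w‖ ≤ _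
    rw [← map_sub]
    generalize v - w = u
    induction u using Completion.induction_on with
    | hp => exact isClosed_le Tk.norm (continuous_const.mul continuous_norm)
    | ih v => rw [Te, Completion.norm_coe]; exact T2 L L0 h v
  · rw [← Ud, ← Ud]
    exact (h _ _).trans (mul_le_mul_of_nonneg_left (lp x y) (by positivity))
  · refine ContinuousLinearMap.ext_on de ?_
    rintro _ ⟨x, rfl⟩
    exact (hW.1 x).trans (Ud x).symm

theorem result (p : ℝ) (p0 : 0 < p) (p1 : p < 1) : ∃ A : PBan p, Nontrivial A.X ∧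
    (∃ δ : A.X → A.X, IsFree A A δ) ∧
      ∀ (F : PBan p) (δ : A.X → F.X), IsFree A F δ → Nonempty (F.X ≃L[ℝ] A.X) := by
  obtain ⟨A, d, nt, h⟩ := fix p0 p1
  refine ⟨A, nt, ⟨d, h⟩, fun F δ k => ?_⟩
  obtain ⟨S, ⟨S1, -⟩, -⟩ := k.2.2.2 A d h.1 ⟨1, zero_le_one, h.2.1⟩
  obtain ⟨T, ⟨T1, -⟩, -⟩ := h.2.2.2 F δ k.1 ⟨1, zero_le_one, k.2.1⟩
  refine ⟨ContinuousLinearEquiv.equivOfInverse' S T (ContinuousLinearMap.ext_on h.2.2.1 ?_)
    (ContinuousLinearMap.ext_on k.2.2.1 ?_)⟩ <;> rintro _ ⟨x, rfl⟩ <;> simp [S1, T1]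

end Pool.Agent.Results.MP_fdacb0_an.Main
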